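import Pool.Agent.H65.TGMain

/-!
A finite game with public signals and an initial state at which the double limit of the values
with finite horizon exists, while the double limit of the discounted values does not.
-/

open Finset Filter Topology
open Pool.Agent.H65.TG

namespace Pool.Agent.Results.MP_3fd3f5_an.TauberianFails

theorem result :
    ∃ (A Ω I J : Type) (_ : Fintype A) (_ : Fintype Ω) (_ : DecidableEq Ω) (_ : Fintype I)
      (_ : Fintype J) (_ : Nonempty A) (_ : Nonempty Ω) (_ : Nonempty I) (_ : Nonempty J)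
      (G : Game A Ω I J) (p : Ω → ℝ) (c η : ℝ) (V : ℝ → ℝ),
      (∀ ω, 0 ≤ p ω) ∧ ∑ ω, p ω = 1 ∧
      -- `W_T(p)` exists and equals `c` for every `T > 0`
      (∀ T, 0 < T → IsW G p T c) ∧
      -- `V_lam(p)` exists for every `lam` in `(0, 1)`
      (∀ lam, 0 < lam → lam < 1 → IsV G p lam (V lam)) ∧
      -- but it oscillates as `lam` tends to `0`
      (∀ l > 0, ∃ lam, 0 < lam ∧ lam < l ∧ lam < 1 ∧ V lam = c) ∧
      0 < η ∧ (∀ l > 0, ∃ lam, 0 < lam ∧ lam < l ∧ lam < 1 ∧ c + η ≤ V lam) ∧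
      -- so one of the double limits exists and the other one does not
      HasLimW G p c ∧ ¬ ∃ ℓ, HasLimV G p ℓ := by
  obtain ⟨V, hV, h1, h2⟩ := main
  refine ⟨Sg, St, Bool, Bool, inferInstance, inferInstance, inferInstance, inferInstance,
    inferInstance, ⟨.A⟩, ⟨.A⟩, ⟨true⟩, ⟨true⟩, game, law, 8 / 1000, 5 / 10000, V,
    fun ω => pt_nonneg _ _, sum_pt _, fun T _ => isW_gate, hV, h1, by norm_num, ?_,
    hasLimW, not_hasLimV⟩
  intro l hl
  obtain ⟨lam, a, b, c, d⟩ := h2 l hl
  exact ⟨lam, a, b, c, le_trans (by norm_num) d⟩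

end Pool.Agent.Results.MP_3fd3f5_an.TauberianFails
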